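import Pool.Agent.H84.LS.Dual

/-!
# Actions on totally ordered sets and the Singer-Hopf inequality in all even dimensions

Let the group `G` act on a totally ordered set `X` by order-preserving maps, and let `p` be a point of
`X` that is not fixed by `G`. The elements `g` with `p ≤ g p` form a monoid `P`. Suppose that the
trivial module `ℂ` over the monoid algebra `ℂ[P]` is of type `FP_(n-1)`. We show that
`(-1)^n χ(M) ≥ 0` for all closed `2n`-manifolds `M` with fundamental group `G` whose universal covering
has no homology in the degrees `1, …, n - 1`, in particular for all closed aspherical `2n`-manifolds with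
fundamental group `G`.

For `n = 1` there is no condition on `P`. If `X = G` with a left order and `p = 1`, then `P` is the
positive cone; for `n = 2` the condition means that the positive cone is connected in the Cayley graph,
and this is the case of the library result `ConnectedConesDimFour`. If `X = ℝ` and `G` acts by the
translations of a character, the condition is that the character is in the invariant `Σ^(n-1)(G; ℂ)` of
Bieri, Neumann, Strebel and Renz. Another case are actions on the real line or on ordered sets like
`G / C`, `C` a relatively convex subgroup.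

Proof. `ℂ[P]` maps onto `ℂ[S]`, `S` the stabiliser of `p`, by the leading parts. Let `E` be a partial
resolution of `ℂ` by finitely generated free `ℂ[P]`-modules. The leading part of `E` is contractible: if
the leading part of a cycle is lifted, the boundary of the lift consists of elements which raise `p`, and
so it is a multiple of the least of them, by a vector of `ℂ[P]`. By the level inequality for von Neumann
dimensions (`N309.LO.level_le`) the kernels of the operators of `E` are not larger than those of the
leading parts, so the reduced `ℓ²`-cohomology of `G` vanishes up to the degree `n - 1`. The comparison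
with the chain complex of `M` and with its dual (a resolution of a one-dimensional module, so that `E`
has to be twisted by a character) shows that only the middle `ℓ²`-Betti number of `M` can be nonzero.
-/

set_option autoImplicit false

open scoped Matrix

universe u z

namespace Pool.Agent.Results.MP_9d0d86_gt.OrderedActions

/-- The matrices of a complex of finitely generated free left modules over the complex group algebra
of `G`: the module in degree `i` consists of the row vectors with `r i` entries, and the boundary
operator from degree `i + 1` to degree `i` is the right multiplication by the matrix `D i`. The dual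
complex consists of the column vectors, with the left multiplication by `D i` from degree `i` to
degree `i + 1`. -/
abbrev Matrices (G : Type u) [Group G] (r : ℕ → ℕ) :=
  ∀ i, Matrix (Fin (r (i + 1))) (Fin (r i)) (MonoidAlgebra ℂ G)

/-- The sum of the coefficients of an element of the group algebra. -/
noncomputable def aug {G : Type u} [Group G] (α : MonoidAlgebra ℂ G) : ℂ :=
  α.coeff.sum fun _ c => c

/-- The action of `G` on the totally ordered set `X` preserves the order. -/
def PreservesOrder (G : Type u) (X : Type z) [Group G] [MulAction G X] [LinearOrder X] : Prop :=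
  ∀ (g : G) (a b : X), a ≤ b → g • a ≤ g • b

/-- The entries of the row vector lie in the monoid algebra of the monoid `{g | p ≤ g • p}`. -/
def IsPositive {G : Type u} {X : Type z} [Group G] [MulAction G X] [LinearOrder X] (p : X) {n : ℕ}
    (x : Fin n → MonoidAlgebra ℂ G) : Prop :=
  ∀ j g, (x j).coeff g ≠ 0 → p ≤ g • p

/-- The trivial module `ℂ` over the monoid algebra of the monoid `{g | p ≤ g • p}` is of type `FP_m`:
there is an exact sequence of finitely generated free modules in the degrees `m, …, 0` and of `ℂ` in the
degree `-1`. The map from the module in degree `0` onto `ℂ` sends `x` to the sum of the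
`aug (x j) * a j`. -/
def MonoidOfTypeFP (G : Type u) {X : Type z} [Group G] [MulAction G X] [LinearOrder X] (p : X)
    (m : ℕ) : Prop :=
  ∃ (r : ℕ → ℕ) (E : Matrices G r) (a : Fin (r 0) → ℂ), a ≠ 0 ∧
    (∀ i < m, ∀ k, IsPositive p (E i k)) ∧
    (0 < m → ∀ x, IsPositive p x →
      ((∃ y, IsPositive p y ∧ y ᵥ* E 0 = x) ↔ ∑ j, aug (x j) * a j = 0)) ∧
    (∀ i, i + 1 < m → ∀ x, IsPositive p x →
      ((∃ y, IsPositive p y ∧ y ᵥ* E (i + 1) = x) ↔ x ᵥ* E i = 0))

/-- The complex is exact in degree `i + 1`. -/
def IsExactAt {G : Type u} [Group G] {r : ℕ → ℕ} (D : Matrices G r) (i : ℕ) : Prop :=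
  ∀ x : Fin (r (i + 1)) → MonoidAlgebra ℂ G, x ᵥ* D i = 0 → ∃ y, y ᵥ* D (i + 1) = x

/-- The dual complex is exact in degree `i + 1`. -/
def IsDualExactAt {G : Type u} [Group G] {r : ℕ → ℕ} (D : Matrices G r) (i : ℕ) : Prop :=
  ∀ x : Fin (r (i + 1)) → MonoidAlgebra ℂ G, D (i + 1) *ᵥ x = 0 → ∃ y, D i *ᵥ y = x

/-- The homology of the complex in degree `0` is the trivial module `ℂ`, by means of the functional
which maps `x` to the sum of the `aug (x i) * a i`. -/
def HasAugmentation {G : Type u} [Group G] {r : ℕ → ℕ} (D : Matrices G r) : Prop :=
  ∃ a : Fin (r 0) → ℂ, a ≠ 0 ∧ ∀ x : Fin (r 0) → MonoidAlgebra ℂ G,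
    (∃ y, y ᵥ* D 0 = x) ↔ ∑ i, aug (x i) * a i = 0

/-- The cokernel of `D i` in the dual complex has dimension one over `ℂ`. -/
def HasCoaugmentation {G : Type u} [Group G] {r : ℕ → ℕ} (D : Matrices G r) (i : ℕ) : Prop :=
  ∃ φ : (Fin (r (i + 1)) → MonoidAlgebra ℂ G) →ₗ[ℂ] ℂ, φ ≠ 0 ∧
    ∀ x, (∃ y, D i *ᵥ y = x) ↔ φ x = 0

/-- The properties used of the cellular chain complex of the universal covering of a closed connected
`2n`-manifold (or Poincaré complex of dimension `2n`) with fundamental group `G` such that the
universal covering has no homology in the degrees `1, …, n - 1` (for example a closed aspherical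
manifold): the length is `2n`, the homology is `ℂ` in degree `0` and zero in the degrees `1, …, n - 1`, and
the cohomology of the dual complex is one-dimensional in degree `2n` and zero in the degrees
`n + 1, …, 2n - 1`. -/
structure IsManifoldComplex {G : Type u} [Group G] (n : ℕ) {r : ℕ → ℕ} (D : Matrices G r) :
    Prop where
  comp : ∀ i, D (i + 1) * D i = 0
  length : ∀ i, 2 * n < i → r i = 0
  exact : ∀ i, i + 1 < n → IsExactAt D i
  augmentation : HasAugmentation D
  coexact : ∀ i, n < i + 1 → i + 1 < 2 * n → IsDualExactAt D i
  coaugmentation : HasCoaugmentation D (2 * n - 1)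

/-- The Euler characteristic of a complex of length `2n`. -/
def eulerCharacteristic (n : ℕ) (r : ℕ → ℕ) : ℤ :=
  ∑ i ∈ Finset.range (2 * n + 1), (-1) ^ i * (r i : ℤ)

/-- **The Singer-Hopf inequality for groups acting on ordered sets.** Let the group `G` act on the
totally ordered set `X` by order-preserving maps, and let `p` be a point of `X` which is not fixed by
`G`, such that the trivial module over the monoid algebra of `{g | p ≤ g • p}` is of type `FP_(n-1)`.
Let `D` be the chain complex of the universal covering of a closed `2n`-manifold with fundamental group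
`G`, for example an aspherical one, such that the universal covering has no homology in the degrees
`1, …, n - 1`. Then the Euler characteristic of the manifold times `(-1)^n` is nonnegative. -/
theorem result (G : Type u) (X : Type z) [Group G] [MulAction G X] [LinearOrder X]
    (hX : PreservesOrder G X) (p : X) (hp : ∃ g : G, g • p ≠ p) (n : ℕ) (hn : 0 < n)
    (hP : MonoidOfTypeFP G p (n - 1)) (r : ℕ → ℕ) (D : Matrices G r)
    (hD : IsManifoldComplex n D) : 0 ≤ (-1) ^ n * eulerCharacteristic n r := by
  classical
  obtain ⟨m, rfl⟩ : ∃ m, n = m + 1 := ⟨n - 1, by omega⟩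
  obtain ⟨r', E, b, hb0, hE1, hE2, hE3⟩ := hP
  have e : m + 1 - 1 = m := rfl
  rw [e] at hE1 hE2 hE3
  -- an element which raises the point
  obtain ⟨a, ha⟩ : ∃ a : G, a ∈ H84.LS.Tc G p := by
    obtain ⟨g, hg⟩ := hp
    rcases lt_or_gt_of_ne hg with h | h
    · refine ⟨g⁻¹, ?_⟩
      have h1 := N309.LO.OrdInv.lt (G := G) hX g⁻¹ h
      rw [inv_smul_smul] at h1
      exact h1
    · exact ⟨g, h⟩
  have hsum : ∀ {k : ℕ} (c : Fin k → ℂ) (x : Fin k → MonoidAlgebra ℂ G),
      N309.PD.augF c x = ∑ j, aug (x j) * c j := by
    intro k c x
    rw [N309.PD.augF_apply]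
    simp only [N309.PD.augm_eq]
    rfl
  have haug : ∀ {k : ℕ} (c : Fin k → ℂ) (g : G) (x : Fin k → MonoidAlgebra ℂ G),
      N309.PD.augF c (N309.PD.gsm g x) = (1 : G →* ℂ) g * N309.PD.augF c x := by
    intro k c g x
    rw [N309.PD.augF_apply, N309.PD.augF_apply, MonoidHom.one_apply, one_mul]
    refine Finset.sum_congr rfl fun j _ => ?_
    congr 1
    change N309.PD.augm (MonoidAlgebra.single g 1 * x j) = _
    rw [map_mul]
    have h1 : N309.PD.augm (MonoidAlgebra.single g (1 : ℂ)) = 1 := by
      unfold N309.PD.augm
      rw [MonoidAlgebra.lift_single, MonoidHom.one_apply, smul_eq_mul, mul_one]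
    rw [h1, one_mul]
  have hE : H84.LS.PRes p m 1 (N309.PD.augF b) E := by
    refine ⟨N309.PD.augF_ne b hb0, haug b, hE1, ?_⟩
    intro i hi x hx
    cases i with
    | zero =>
      change N309.PD.augF b x = 0 ↔ _
      rw [hsum]
      exact (hE2 hi x hx).symm
    | succ i => exact (hE3 i hi x hx).symm
  obtain ⟨c, hc0, hc⟩ := hD.augmentation
  have hDr : H84.LS.GRes (m + 1) 1 (N309.PD.augF c) D := by
    refine ⟨N309.PD.augF_ne c hc0, haug c, ?_⟩
    intro i hi x
    cases i with
    | zero =>
      change N309.PD.augF c x = 0 ↔ _
      rw [hsum]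
      exact (hc x).symm
    | succ i =>
      constructor
      · intro hx
        exact hD.exact i hi x hx
      · rintro ⟨y, rfl⟩
        change (y ᵥ* D (i + 1)) ᵥ* D i = 0
        rw [Matrix.vecMul_vecMul, hD.comp, Matrix.vecMul_zero]
  obtain ⟨φ, hφ0, hφ⟩ : HasCoaugmentation D (2 * m + 1) := hD.coaugmentation
  have h := H84.LS.euler_sign (G := G) hX hE a ha D hD.comp (hD.length (2 * m + 3) (by omega)) _ 1 hDr
    (hE.twist 1) (fun i h1 h2 x hx => hD.coexact i (by omega) (by omega) x hx) φ hφ0 hφ
  have h' : ((0 : ℤ) : ℝ) ≤ (((-1) ^ (m + 1) * eulerCharacteristic (m + 1) r : ℤ) : ℝ) := by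
    unfold eulerCharacteristic
    push_cast
    exact h
  exact_mod_cast h'

end Pool.Agent.Results.MP_9d0d86_gt.OrderedActions
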